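import Mathlib

/-! Deuber sets `{M d} ∪ {a + j d : j ≤ p}` and the configuration `{y} ∪ D ∪ y ^ n D`. -/

set_option autoImplicit false

open Set Filter

namespace Pool.Agent.KS6_55.PR

theorem vdw_fin (κ : Type) [Finite κ] (L : ℕ) : ∃ M : ℕ, ∀ χ : ℕ → κ, ∃ b e : ℕ, 0 < b ∧ 0 < e ∧
    b + L * e ≤ M ∧ ∀ s ≤ L, χ (b + s * e) = χ b := by
  let _ : TopologicalSpace κ := ⊥
  have : DiscreteTopology κ := ⟨rfl⟩
  let U : ℕ × ℕ → Set (ℕ → κ) := fun p =>
    {χ | ∀ s ∈ Finset.range (L + 1), χ (p.1 + 1 + s * (p.2 + 1)) = χ (p.1 + 1)}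
  have hU : ∀ p, IsOpen (U p) := fun p => by
    simp only [U, ofPred_forall]
    refine isOpen_biInter_finset fun s _ => ?_
    have hc : Continuous fun χ : ℕ → κ => (χ (p.1 + 1 + s * (p.2 + 1)), χ (p.1 + 1)) :=
      (continuous_apply _).prodMk (continuous_apply _)
    exact (isOpen_discrete {q : κ × κ | q.1 = q.2}).preimage hc
  obtain ⟨t, ht⟩ := isCompact_univ.elim_finite_subcover U hU fun χ _ => by
    obtain ⟨e, he, b, c, h⟩ := Combinatorics.exists_mono_homothetic_copy (Finset.range (L + 1))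
      fun n => χ (n + 1)
    refine mem_iUnion.2 ⟨(b, e - 1), fun s hs => ?_⟩
    have h1 := h s hs
    have h0 := h 0 (by simp)
    simp only [smul_eq_mul, mul_zero, zero_add] at h1 h0
    rw [h0, ← h1, Nat.sub_add_cancel he]
    congr 1
    ring
  refine ⟨t.sup fun p => p.1 + 1 + L * (p.2 + 1), fun χ => ?_⟩
  obtain ⟨p, hp, hχ⟩ := mem_iUnion₂.1 (ht (mem_univ χ))
  exact ⟨p.1 + 1, p.2 + 1, by omega, by omega,
    Finset.le_sup (f := fun p : ℕ × ℕ => p.1 + 1 + L * (p.2 + 1)) hp,
    fun s hs => hχ s (Finset.mem_range.2 (by omega))⟩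

theorem deuber_fin (κ : Type) [Finite κ] (M p : ℕ) (hM : 0 < M) (n : ℕ) :
    ∃ N : ℕ, ∀ S : Finset κ, S.card ≤ n →
    ∀ χ : ℕ → κ, (∀ j, 1 ≤ j → j ≤ N → χ j ∈ S) → ∃ a d : ℕ, 0 < a ∧ 0 < d ∧
      χ (M * d) = χ a ∧ ∀ j ≤ p, χ (a + j * d) = χ a := by
  classical
  induction n with
  | zero =>
    refine ⟨1, fun S hS χ h => ?_⟩
    have := h 1 le_rfl le_rfl
    rw [Finset.card_eq_zero.1 (Nat.le_zero.1 hS)] at this
    simp at this
  | succ n ih =>
    obtain ⟨N, hN⟩ := ih
    obtain ⟨K, hK⟩ := vdw_fin κ (max (p * N) (M * N))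
    refine ⟨K, fun S hS χ h => ?_⟩
    obtain ⟨b, e, hb, he, hle, hmono⟩ := hK χ
    have hm1 := le_max_left (p * N) (M * N)
    have hm2 := le_max_right (p * N) (M * N)
    by_cases hj : ∃ j, 1 ≤ j ∧ j ≤ N ∧ χ (M * (j * e)) = χ b
    · obtain ⟨j, h1, h2, h3⟩ := hj
      refine ⟨b, j * e, hb, by positivity, h3, fun i hi => ?_⟩
      rw [← mul_assoc]
      exact hmono _ (le_trans (Nat.mul_le_mul hi h2) hm1)
    · push Not at hj
      have hbS : χ b ∈ S := h b hb (by omega)
      obtain ⟨a, d, ha, hd, h1, h2⟩ := hN (S.erase (χ b))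
        (by rw [Finset.card_erase_of_mem hbS]; omega) (fun j => χ (M * (j * e))) fun j h1 h2 => by
          refine Finset.mem_erase.2 ⟨hj j h1 h2, h _ (Nat.mul_pos hM (Nat.mul_pos h1 he)) ?_⟩
          have : M * (j * e) ≤ M * N * e := by
            rw [← mul_assoc]; exact Nat.mul_le_mul_right _ (Nat.mul_le_mul_left _ h2)
          have : M * N * e ≤ max (p * N) (M * N) * e := Nat.mul_le_mul_right _ hm2
          omega
      refine ⟨M * (a * e), M * (d * e), by positivity, by positivity, ?_, fun j hj => ?_⟩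
      · rw [← h1]; congr 1; ring
      · rw [← h2 j hj]; congr 1; ring

theorem deuber (κ : Type) [Finite κ] (M p : ℕ) (hM : 0 < M) (χ : ℕ → κ) :
    ∃ a d : ℕ, 0 < a ∧ 0 < d ∧ χ (M * d) = χ a ∧ ∀ j ≤ p, χ (a + j * d) = χ a := by
  classical
  have := Fintype.ofFinite κ
  obtain ⟨N, hN⟩ := deuber_fin κ M p hM (Fintype.card κ)
  exact hN Finset.univ le_rfl χ fun _ _ _ => Finset.mem_univ _

/-- `D` and `y ^ n D` inside `A`, `y` in the `FP`-set of `s`, for a Deuber set `D` -/
def Good (M p n : ℕ) (A : Set ℕ) : Prop := ∀ s : Stream' ℕ, (∀ m ∈ Hindman.FP s, 0 < m) →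
  ∃ y ∈ Hindman.FP s, ∃ a d : ℕ, 0 < a ∧ 0 < d ∧ M * d ∈ A ∧ (∀ j ≤ p, a + j * d ∈ A) ∧
    y ^ n * (M * d) ∈ A ∧ ∀ j ≤ p, y ^ n * (a + j * d) ∈ A

theorem exists_ultra (M p n : ℕ) (hM : 0 < M) : ∃ U : Ultrafilter ℕ, ∀ A ∈ U, Good M p n A := by
  classical
  obtain ⟨U, hU⟩ := Ultrafilter.exists_ultrafilter_of_finite_inter_nonempty
    {B | ¬ Good M p n Bᶜ} fun T hT => by
      by_contra hno
      have : ∀ n : ℕ, ∃ B : T, n ∉ (B : Set ℕ) := fun n => by
        by_contra h
        push Not at h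
        exact hno ⟨n, fun B hB => h ⟨B, hB⟩⟩
      choose χ hχ using this
      have hs : ∀ B : T, ∃ s : Stream' ℕ, (∀ m ∈ Hindman.FP s, 0 < m) ∧
          ¬ ∃ y ∈ Hindman.FP s, ∃ a d : ℕ, 0 < a ∧ 0 < d ∧ M * d ∈ (B : Set ℕ)ᶜ ∧
            (∀ j ≤ p, a + j * d ∈ (B : Set ℕ)ᶜ) ∧
            y ^ n * (M * d) ∈ (B : Set ℕ)ᶜ ∧ ∀ j ≤ p, y ^ n * (a + j * d) ∈ (B : Set ℕ)ᶜ := by
        intro B
        have := hT B.2
        simp only [mem_ofPred_eq, Good] at this
        push Not at this
        obtain ⟨s, h1, h2⟩ := this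
        refine ⟨s, h1, ?_⟩
        rintro ⟨y, hy, a, d, ha, hd, h3, h4, h5, h6⟩
        obtain ⟨j, hj, h7⟩ := h2 y hy a d ha hd h3 h4 h5
        exact h7 (h6 j hj)
      choose s hs0 hs1 using hs
      obtain ⟨ι, _, hι⟩ := Combinatorics.Line.exists_mono_in_high_dimension (T → Bool) T
      let e : ι ≃ Fin (Fintype.card ι) := Fintype.equivFin ι
      let f : (ι → (T → Bool)) → ℕ := fun v =>
        ∏ i, ∏ B, if v i B then ((s B).get (e i)) ^ n else 1
      have fpos : ∀ v, 0 < f v := fun v => Finset.prod_pos fun i _ => Finset.prod_pos fun B _ => by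
        split_ifs
        · exact pow_pos (hs0 B _ (Hindman.FP.singleton _ _)) _
        · exact one_pos
      obtain ⟨a, d, ha, hd, h1, h2⟩ := deuber ((ι → (T → Bool)) → T) M p hM
        fun x v => χ (f v * x)
      obtain ⟨l, B, hl⟩ := hι fun v => χ (f v * a)
      let x0 : T → Bool := fun _ => false
      let x1 : T → Bool := fun B' => decide (B' = B)
      let act : Finset ι := Finset.univ.filter fun i => l.idxFun i = none
      let y : ℕ := ∏ i ∈ act, (s B).get (e i)
      have hact : act.Nonempty := by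
        obtain ⟨i, hi⟩ := l.proper
        exact ⟨i, by simp [act, hi]⟩
      have hy : y ∈ Hindman.FP (s B) := by
        have h := Hindman.FP.finsetProd (s B) (act.map (e.toEmbedding.trans Fin.valEmbedding))
          (by simpa using hact)
        rw [Finset.prod_map] at h
        exact h
      have hf : f (l x1) = y ^ n * f (l x0) := by
        have h3 : f (l x0) = ∏ i, ∏ B' : T,
            if i ∈ act then 1 else (if (l x0) i B' then ((s B').get (e i)) ^ n else 1) := by
          refine Finset.prod_congr rfl fun i _ => Finset.prod_congr rfl fun B' _ => ?_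
          by_cases hi : i ∈ act
          · have hi' : l.idxFun i = none := by simpa [act] using hi
            rw [if_pos hi, l.apply_none x0 i hi']
            simp [x0]
          · rw [if_neg hi]
        have h4 : f (l x1) = ∏ i, ((if i ∈ act then ((s B).get (e i)) ^ n else 1) * ∏ B' : T,
            if i ∈ act then 1 else (if (l x0) i B' then ((s B').get (e i)) ^ n else 1)) := by
          refine Finset.prod_congr rfl fun i _ => ?_
          by_cases hi : i ∈ act
          · have hi' : l.idxFun i = none := by simpa [act] using hi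
            rw [if_pos hi, l.apply_none x1 i hi']
            simp only [if_pos hi, Finset.prod_const_one, mul_one]
            simp only [x1, decide_eq_true_eq]
            rw [Finset.prod_ite_eq' Finset.univ B]
            simp
          · have hi' : l.idxFun i ≠ none := by simpa [act] using hi
            obtain ⟨z, hz⟩ := Option.ne_none_iff_exists'.1 hi'
            simp only [if_neg hi, one_mul]
            rw [l.apply_some hz, l.apply_some hz]
        rw [h4, Finset.prod_mul_distrib, ← h3, Finset.prod_ite_mem, Finset.univ_inter,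
          Finset.prod_pow]
      have col : ∀ x, χ (f (l x) * a) = B := hl
      have key : ∀ x m, (fun v => χ (f v * m)) = (fun v => χ (f v * a)) →
          f (l x) * m ∈ (B : Set ℕ)ᶜ := fun x m hm => by
        have := congrFun hm (l x)
        rw [col x] at this
        rw [← this]
        exact hχ _
      refine hs1 B ⟨y, hy, f (l x0) * a, f (l x0) * d, Nat.mul_pos (fpos _) ha,
        Nat.mul_pos (fpos _) hd, ?_, fun j hj => ?_, ?_, fun j hj => ?_⟩
      · have := key x0 _ h1
        rwa [mul_left_comm] at this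
      · have := key x0 _ (h2 j hj)
        rwa [mul_add, mul_left_comm] at this
      · have := key x1 _ h1
        rw [hf] at this
        convert this using 1
        ring
      · have := key x1 _ (h2 j hj)
        rw [hf] at this
        convert this using 1
        ring
  refine ⟨U, fun A hA => ?_⟩
  by_contra h
  have : Aᶜ ∈ U := hU (show ¬ Good M p n Aᶜᶜ by rwa [compl_compl])
  exact (Ultrafilter.compl_mem_iff_notMem.1 this) hA

theorem exists_idem (M p n : ℕ) (hM : 0 < M) :
    ∃ U : Ultrafilter ℕ, (∀ A ∈ U, Good M p n A) ∧ @HMul.hMul _ _ _ (@instHMul _ Ultrafilter.mul) U U = U := by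
  let _ := @Ultrafilter.semigroup ℕ _
  have one_pos' : ∀ m ∈ Hindman.FP (Stream'.const 1), 0 < m := by
    have h : ∀ (a : Stream' ℕ) (m : ℕ), m ∈ Hindman.FP a → a = Stream'.const 1 → m = 1 := by
      intro a m hm
      induction hm with
      | head' a => rintro rfl; rfl
      | tail' a m h ih => rintro rfl; exact ih rfl
      | cons' a m h ih =>
        rintro rfl
        rw [ih rfl]; rfl
    intro m hm
    rw [h _ m hm rfl]; exact one_pos
  obtain ⟨U, hU, hUU⟩ := exists_idempotent_in_compact_subsemigroup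
    (M := Ultrafilter ℕ) Ultrafilter.continuous_mul_left {U | ∀ A ∈ U, Good M p n A}
    (exists_ultra M p n hM)
    (by
      apply IsClosed.isCompact
      have : {U : Ultrafilter ℕ | ∀ A ∈ U, Good M p n A} =
          ⋂ A ∈ {A | ¬ Good M p n A}, {U | Aᶜ ∈ U} := by
        ext U
        simp only [mem_ofPred_eq, mem_iInter, Ultrafilter.compl_mem_iff_notMem]
        exact forall_congr' fun A => not_imp_not.symm
      rw [this]
      exact isClosed_biInter fun A _ => ultrafilter_isClosed_basic _)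
    (by
      intro U hU V hV A hA s hs
      obtain ⟨-, -, w, d', hw, -, -, hwA, -⟩ :=
        hU _ ((Ultrafilter.eventually_mul U V (· ∈ A)).1 hA) (Stream'.const 1) one_pos'
      obtain ⟨y, hy, a, d, ha, hd, h1, h2, h3, h4⟩ := hV _ (hwA 0 (Nat.zero_le _)) s hs
      rw [zero_mul, add_zero] at h1 h3
      replace h2 : ∀ j ≤ p, w * (a + j * d) ∈ A := fun j hj => by
        have := h2 j hj
        rwa [zero_mul, add_zero] at this
      replace h4 : ∀ j ≤ p, w * (y ^ n * (a + j * d)) ∈ A := fun j hj => by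
        have := h4 j hj
        rwa [zero_mul, add_zero] at this
      refine ⟨y, hy, w * a, w * d, by positivity, by positivity, ?_, fun j hj => ?_, ?_,
        fun j hj => ?_⟩
      · rw [mul_left_comm]; exact h1
      · rw [mul_left_comm, ← mul_add]; exact h2 j hj
      · rw [mul_left_comm M, mul_left_comm]; exact h3
      · rw [mul_left_comm j, ← mul_add, mul_left_comm]; exact h4 j hj)
  exact ⟨U, hU, hUU⟩

/-- the configuration: in one colour class, all elements divisible by `Q` -/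
theorem config (M p n Q : ℕ) (hM : 0 < M) (hp : 1 ≤ p) (r : ℕ) (χ : ℕ → Fin r) (hQ : 0 < Q) :
    ∃ y a d : ℕ, ∃ c, 0 < y ∧ 0 < a ∧ 0 < d ∧ Q ∣ y ∧ Q ∣ a ∧ Q ∣ d ∧ χ y = c ∧
      χ (M * d) = c ∧ (∀ j ≤ p, χ (a + j * d) = c) ∧ χ (y ^ n * (M * d)) = c ∧
      ∀ j ≤ p, χ (y ^ n * (a + j * d)) = c := by
  obtain ⟨U, hU, hUU⟩ := exists_idem M p n hM
  obtain ⟨c, hc⟩ : ∃ c, {n | χ n = c} ∈ U := by
    obtain ⟨c, hc⟩ := Ultrafilter.eq_pure_of_finite (U.map χ)
    exact ⟨c, show {c} ∈ U.map χ by rw [hc]; simp⟩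
  have one_pos' : ∀ m ∈ Hindman.FP (Stream'.const 1), 0 < m := by
    have h : ∀ (a : Stream' ℕ) (m : ℕ), m ∈ Hindman.FP a → a = Stream'.const 1 → m = 1 := by
      intro a m hm
      induction hm with
      | head' a => rintro rfl; rfl
      | tail' a m h ih => rintro rfl; exact ih rfl
      | cons' a m h ih =>
        rintro rfl
        rw [ih rfl]; rfl
    intro m hm
    rw [h _ m hm rfl]; exact one_pos
  have hres : ∀ A ∈ U, ∀ R : ℕ, 0 < R → ({m | R ∣ m ∧ 0 < m} : Set ℕ) ∈ U := by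
    intro A hA R hR
    have : NeZero R := ⟨hR.ne'⟩
    obtain ⟨ρ, hρ⟩ : ∃ ρ : ZMod R, {m : ℕ | (m : ZMod R) = ρ} ∈ U := by
      obtain ⟨c, hc⟩ := Ultrafilter.eq_pure_of_finite (U.map fun m : ℕ => (m : ZMod R))
      exact ⟨c, show {c} ∈ U.map _ by rw [hc]; simp⟩
    obtain ⟨-, -, a, d, ha, hd, h1, h2, -⟩ := hU _ hρ _ one_pos'
    have h3 : (a : ZMod R) = ρ := by simpa using h2 0 (Nat.zero_le _)
    have h4 : (a : ZMod R) + d = ρ := by simpa using h2 1 hp
    have h5 : (d : ZMod R) = 0 := by rw [← h3] at h4; simpa using h4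
    have h6 : ρ = 0 := by
      have : ((M * d : ℕ) : ZMod R) = ρ := h1
      rw [← this]; push_cast; rw [h5, mul_zero]
    have h7 : ({m : ℕ | 0 < m} : Set ℕ) ∈ U := by
      by_contra hcon
      have := Ultrafilter.compl_mem_iff_notMem.2 hcon
      obtain ⟨-, -, a, d, ha, hd, h1, h2, -⟩ := hU _ this _ one_pos'
      have := h2 0 (Nat.zero_le _)
      simp at this
      omega
    filter_upwards [hρ, h7] with m hm hm'
    refine ⟨?_, hm'⟩
    have : (m : ZMod R) = 0 := by rw [← h6]; exact hm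
    exact (ZMod.natCast_eq_zero_iff _ _).1 this
  have hQU := hres _ hc Q hQ
  obtain ⟨s, hs⟩ := Hindman.exists_FP_of_large U hUU _ (inter_mem hc hQU)
  obtain ⟨y, hy, a, d, ha, hd, h1, h2, h3, h4⟩ := hU _ (inter_mem hc hQU) s
    (fun m hm => (hs hm).2.2)
  have hyA := hs hy
  have hQa : Q ∣ a := by
    have := (h2 0 (Nat.zero_le _)).2.1
    simpa using this
  have hQd : Q ∣ d := by
    have := (h2 1 hp).2.1
    rw [one_mul] at this
    exact (Nat.dvd_add_right hQa).1 this
  exact ⟨y, a, d, c, hyA.2.2, ha, hd, hyA.2.1, hQa, hQd, hyA.1, h1.1, fun j hj => (h2 j hj).1,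
    h3.1, fun j hj => (h4 j hj).1⟩

end Pool.Agent.KS6_55.PR
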