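import Pool.Agent.KS6_55.PR.Deu

/-! Sufficient and necessary conditions for partition regularity of the system
`a i * x i + b i * y i = c i * w i * z i ^ n`. -/

set_option autoImplicit false

namespace Pool.Agent.KS6_55.PR

/-- for every colouring of `ℤ` with finitely many colours the system
`a i * x i + b i * y i = c i * w i * z i ^ n` has a solution in nonzero integers, all variables of one
colour -/
def PartReg (k : ℕ) (a b c : Fin k → ℤ) (n : ℕ) : Prop :=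
  ∀ (r : ℕ) (χ : ℤ → Fin r), ∃ (x y w z : Fin k → ℤ) (col : Fin r),
    ∀ i, x i ≠ 0 ∧ y i ≠ 0 ∧ w i ≠ 0 ∧ z i ≠ 0 ∧
      a i * x i + b i * y i = c i * w i * z i ^ n ∧
      χ (x i) = col ∧ χ (y i) = col ∧ χ (w i) = col ∧ χ (z i) = col

/-- members of the Deuber set with centre `u` -/
def Form (M : ℤ) (J : ℕ) (u d X : ℤ) : Prop := X = M * d ∨ ∃ j : ℤ, |j| ≤ J ∧ X = u + j * d

theorem Form.mono {M : ℤ} {J K : ℕ} (h : J ≤ K) {u d X : ℤ} (hX : Form M J u d X) :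
    Form M K u d X := by
  rcases hX with h1 | ⟨j, h1, h2⟩
  · exact Or.inl h1
  · exact Or.inr ⟨j, h1.trans (by exact_mod_cast h), h2⟩

theorem Form.mk {M : ℤ} {J : ℕ} {u d X : ℤ} (j : ℤ) (hj : |j| ≤ J) (hX : X = u + j * d) :
    Form M J u d X := Or.inr ⟨j, hj, hX⟩

theorem one_eq (a b c : ℤ) (n : ℕ) (hc : c ≠ 0) (q : ℚ) (M : ℤ)
    (h : a + b = 0 ∨ q ^ n = a / c ∨ q ^ n = b / c ∨ q ^ n = (a + b) / c)
    (haM : a ∣ M) (hbM : b ∣ M) (hτ : ∃ τ : ℤ, (a : ℚ) * τ = c * q ^ n * M) :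
    ∃ J : ℕ, ∀ u d : ℤ, ∃ X Y W : ℤ, Form M J u d X ∧ Form M J u d Y ∧ Form M J u d W ∧
      (a : ℚ) * X + b * Y = c * q ^ n * W := by
  have hc' : (c : ℚ) ≠ 0 := by exact_mod_cast hc
  obtain ⟨M1, hM1⟩ := haM
  obtain ⟨M2, hM2⟩ := hbM
  obtain ⟨τ, hτ⟩ := hτ
  rcases h with h | h | h | h
  · refine ⟨τ.natAbs, fun u d => ⟨u + τ * d, u, M * d, Form.mk τ (by simp) rfl,
      Form.mk 0 (by simp) (by ring), Or.inl rfl, ?_⟩⟩
    have hb : b = -a := by linarith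
    rw [hb]
    push_cast
    linear_combination (d : ℚ) * hτ
  · have h' : (c : ℚ) * q ^ n = a := by rw [h]; field_simp
    refine ⟨(b * M1).natAbs, fun u d => ⟨u + -(b * M1) * d, M * d, u,
      Form.mk (-(b * M1)) (by rw [abs_neg, Int.abs_eq_natAbs]) rfl, Or.inl rfl,
      Form.mk 0 (by rw [abs_zero]; positivity) (by ring), ?_⟩⟩
    rw [h', hM1]
    push_cast
    ring
  · have h' : (c : ℚ) * q ^ n = b := by rw [h]; field_simp
    refine ⟨(a * M2).natAbs, fun u d => ⟨M * d, u + -(a * M2) * d, u, Or.inl rfl,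
      Form.mk (-(a * M2)) (by rw [abs_neg, Int.abs_eq_natAbs]) rfl,
      Form.mk 0 (by rw [abs_zero]; positivity) (by ring), ?_⟩⟩
    rw [h', hM2]
    push_cast
    ring
  · have h' : (c : ℚ) * q ^ n = a + b := by rw [h]; field_simp
    refine ⟨a.natAbs + b.natAbs, fun u d => ⟨u + b * d, u + -a * d, u,
      Form.mk b (by push_cast; linarith [abs_nonneg a, abs_nonneg b]) rfl,
      Form.mk (-a) (by push_cast; rw [abs_neg]; linarith [abs_nonneg a, abs_nonneg b]) rfl,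
      Form.mk 0 (by push_cast; simp; positivity) (by ring), ?_⟩⟩
    rw [h']
    push_cast
    ring

theorem scale (q : ℚ) (m : ℕ) (h : q.den ∣ m) :
    ((q.num * ((m / q.den : ℕ) : ℤ) : ℤ) : ℚ) = q * m := by
  obtain ⟨t, rfl⟩ := h
  rw [Nat.mul_div_cancel_left _ q.den_pos]
  push_cast
  rw [← mul_assoc, Rat.mul_den_eq_num]

theorem suff (k : ℕ) (a b c : Fin k → ℤ) (n : ℕ) (h0 : ∀ i, a i ≠ 0 ∧ b i ≠ 0 ∧ c i ≠ 0)
    (q : ℚ) (hq : q ≠ 0)
    (h : ∀ i, a i + b i = 0 ∨ q ^ n = (a i : ℚ) / (c i : ℚ) ∨ q ^ n = (b i : ℚ) / (c i : ℚ) ∨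
      q ^ n = ((a i : ℚ) + (b i : ℚ)) / (c i : ℚ)) : PartReg k a b c n := by
  intro r χ
  let R : ℕ := ∏ i, (a i).natAbs * (b i).natAbs
  let M : ℕ := q.den ^ n * R
  have hR : 0 < R := Finset.prod_pos fun i _ =>
    Nat.mul_pos (Int.natAbs_pos.2 (h0 i).1) (Int.natAbs_pos.2 (h0 i).2.1)
  have hM : 0 < M := Nat.mul_pos (pow_pos q.den_pos _) hR
  have hdR : ∀ i, (a i).natAbs * (b i).natAbs ∣ R := fun i =>
    Finset.dvd_prod_of_mem (fun i => (a i).natAbs * (b i).natAbs) (Finset.mem_univ i)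
  have haR : ∀ i, a i ∣ (R : ℤ) := fun i =>
    Int.natAbs_dvd.1 (Int.natCast_dvd_natCast.2 ((Nat.dvd_mul_right _ _).trans (hdR i)))
  have hbR : ∀ i, b i ∣ (R : ℤ) := fun i =>
    Int.natAbs_dvd.1 (Int.natCast_dvd_natCast.2 ((Nat.dvd_mul_left _ _).trans (hdR i)))
  have hRM : (R : ℤ) ∣ (M : ℤ) := Int.natCast_dvd_natCast.2 (Nat.dvd_mul_left _ _)
  have h1 := fun i => one_eq (a i) (b i) (c i) n (h0 i).2.2 q M (h i) ((haR i).trans hRM)
    ((hbR i).trans hRM) (by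
      obtain ⟨R', hR'⟩ := haR i
      refine ⟨c i * q.num ^ n * R', ?_⟩
      have e1 : (q.den : ℚ) ^ n * q ^ n = (q.num : ℚ) ^ n := by
        rw [← mul_pow, mul_comm, Rat.mul_den_eq_num]
      have e2 : (R : ℚ) = (a i : ℚ) * R' := by exact_mod_cast hR'
      push_cast [M]
      rw [e2]
      linear_combination (-(a i : ℚ) * c i * R') * e1)
  choose J hJ using h1
  let K : ℕ := ∑ i, J i
  have hK : ∀ i, J i ≤ K := fun i => Finset.single_le_sum (f := J) (fun _ _ => Nat.zero_le _)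
    (Finset.mem_univ i)
  obtain ⟨y, a0, d, col, hy, ha0, hd, hQy, hQa, hQd, hcy, h2, h3, h4, h5⟩ :=
    config M (2 * K + 1) n q.den hM (by omega) r
      (fun m => χ (q.num * ((m / q.den : ℕ) : ℤ))) q.den_pos
  have key : ∀ X : ℤ, Form M K (a0 + K * d) d X → ∃ m : ℕ, (m : ℤ) = X ∧ 0 < m ∧ q.den ∣ m ∧
      χ (q.num * ((m / q.den : ℕ) : ℤ)) = col ∧
      χ (q.num * ((y ^ n * m / q.den : ℕ) : ℤ)) = col := by
    rintro X (rfl | ⟨j, hj, rfl⟩)
    · exact ⟨M * d, by push_cast; rfl, by positivity, hQd.mul_left _, h2, h4⟩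
    · rw [abs_le] at hj
      obtain ⟨t, ht⟩ := Int.eq_ofNat_of_zero_le (show 0 ≤ K + j by omega)
      have ht2 : t ≤ 2 * K + 1 := by omega
      refine ⟨a0 + t * d, ?_, by positivity, (Nat.dvd_add_right hQa).2 (hQd.mul_left _),
        h3 t ht2, h5 t ht2⟩
      push_cast
      rw [← ht]
      ring
  have hx : ∀ i, ∃ x y' w : ℤ, x ≠ 0 ∧ y' ≠ 0 ∧ w ≠ 0 ∧
      a i * x + b i * y' = c i * w * (q.num * ((y / q.den : ℕ) : ℤ)) ^ n ∧
      χ x = col ∧ χ y' = col ∧ χ w = col := by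
    intro i
    obtain ⟨X, Y, W, hX, hY, hW, he⟩ := hJ i (a0 + K * d) d
    obtain ⟨mX, hX1, hX2, hX3, hX4, hX5⟩ := key X (hX.mono (hK i))
    obtain ⟨mY, hY1, hY2, hY3, hY4, hY5⟩ := key Y (hY.mono (hK i))
    obtain ⟨mW, hW1, hW2, hW3, hW4, hW5⟩ := key W (hW.mono (hK i))
    have sX := scale q (y ^ n * mX) (hX3.mul_left _)
    have sY := scale q (y ^ n * mY) (hY3.mul_left _)
    have sW := scale q mW hW3
    have sz := scale q y hQy
    have nz : ∀ m : ℕ, 0 < m → q.den ∣ m → q.num * ((m / q.den : ℕ) : ℤ) ≠ 0 := by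
      intro m hm hd h
      have := scale q m hd
      rw [h] at this
      have h' : (m : ℚ) ≠ 0 := by exact_mod_cast hm.ne'
      exact mul_ne_zero hq h' (by rw [← this]; simp)
    refine ⟨_, _, _, nz _ (Nat.mul_pos (pow_pos hy n) hX2) (hX3.mul_left _),
      nz _ (Nat.mul_pos (pow_pos hy n) hY2) (hY3.mul_left _), nz _ hW2 hW3, ?_, hX5, hY5, hW4⟩
    have fin : ∀ x1 y1 w1 z1 : ℤ, (x1 : ℚ) = q * (y ^ n * mX : ℕ) → (y1 : ℚ) = q * (y ^ n * mY : ℕ) →
        (w1 : ℚ) = q * mW → (z1 : ℚ) = q * y → a i * x1 + b i * y1 = c i * w1 * z1 ^ n := by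
      intro x1 y1 w1 z1 i1 i2 i3 i4
      have : ((a i * x1 + b i * y1 : ℤ) : ℚ) = ((c i * w1 * z1 ^ n : ℤ) : ℚ) := by
        push_cast
        rw [i1, i2, i3, i4]
        push_cast
        have e1 : (mX : ℚ) = X := by exact_mod_cast hX1
        have e2 : (mY : ℚ) = Y := by exact_mod_cast hY1
        have e3 : (mW : ℚ) = W := by exact_mod_cast hW1
        rw [e1, e2, e3]
        linear_combination (q * (y : ℚ) ^ n) * he
      exact_mod_cast this
    exact fin _ _ _ _ sX sY sW sz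
  choose x y' w hx using hx
  have sz := scale q y hQy
  refine ⟨x, y', w, fun _ => q.num * ((y / q.den : ℕ) : ℤ), col, fun i => ?_⟩
  obtain ⟨e1, e2, e3, e4, e5, e6, e7⟩ := hx i
  refine ⟨e1, e2, e3, ?_, e4, e5, e6, e7, hcy⟩
  intro h
  simp only at h
  rw [h] at sz
  have h' : (y : ℚ) ≠ 0 := by exact_mod_cast hy.ne'
  exact mul_ne_zero hq h' (by rw [← sz]; simp)

theorem uniq {p : ℤ} (hp : Prime p) {s t : ℕ} {X Y : ℤ} (h : p ^ s * X = p ^ t * Y)
    (hX : ¬ p ∣ X) (hY : ¬ p ∣ Y) : X = Y := by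
  wlog hst : s ≤ t generalizing s t X Y
  · exact (this h.symm hY hX (by omega)).symm
  obtain ⟨e, rfl⟩ := Nat.exists_eq_add_of_le hst
  rw [pow_add, mul_assoc] at h
  have h1 := mul_left_cancel₀ (pow_ne_zero s hp.ne_zero) h
  cases e with
  | zero => simpa using h1
  | succ e => exact absurd ⟨p ^ e * Y, by rw [h1]; ring⟩ hX

theorem dec {p : ℤ} (hp : Prime p) (x : ℤ) (hx : x ≠ 0) : ∃ s X, x = p ^ s * X ∧ ¬ p ∣ X := by
  have hf : FiniteMultiplicity p x := Int.finiteMultiplicity_iff.2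
    ⟨by have := hp.not_unit; rwa [Int.isUnit_iff_natAbs_eq] at this, hx⟩
  obtain ⟨X, h1, h2⟩ := hf.exists_eq_pow_mul_and_not_dvd
  exact ⟨_, X, h1, h2⟩

theorem nec (k : ℕ) (a b c : Fin k → ℤ) (n : ℕ) (hPR : PartReg k a b c n) (p : ℕ) [hp : Fact p.Prime]
    (h1 : ∀ i, ¬ (p : ℤ) ∣ a i ∧ ¬ (p : ℤ) ∣ b i ∧ ¬ (p : ℤ) ∣ c i ∧
      (a i + b i ≠ 0 → ¬ (p : ℤ) ∣ a i + b i)) :
    ∃ δ : ZMod p, δ ≠ 0 ∧ ∀ i, a i + b i = 0 ∨ (c i : ZMod p) * δ ^ n = a i ∨
      (c i : ZMod p) * δ ^ n = b i ∨ (c i : ZMod p) * δ ^ n = a i + b i := by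
  classical
  have hpp : Prime (p : ℤ) := Nat.prime_iff_prime_int.1 hp.out
  have hdec : ∀ x : ℤ, ∃ X : ℤ, x ≠ 0 → (∃ s, x = (p : ℤ) ^ s * X) ∧ ¬ (p : ℤ) ∣ X := by
    intro x
    by_cases hx : x = 0
    · exact ⟨0, fun h => absurd hx h⟩
    · obtain ⟨s, X, h1, h2⟩ := dec hpp x hx
      exact ⟨X, fun _ => ⟨⟨s, h1⟩, h2⟩⟩
  choose D hD using hdec
  have : NeZero p := ⟨hp.out.ne_zero⟩
  let e : ZMod p ≃ Fin p := Fintype.equivFinOfCardEq (ZMod.card p)
  obtain ⟨x, y, w, z, col, h⟩ := hPR p fun m => e (D m : ZMod p)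
  by_cases hk : Nonempty (Fin k)
  swap
  · exact ⟨1, one_ne_zero, fun i => absurd ⟨i⟩ hk⟩
  have hcast : ∀ m : ℤ, (m : ZMod p) = 0 ↔ (p : ℤ) ∣ m := fun m =>
    ZMod.intCast_zmod_eq_zero_iff_dvd m p
  have hδ : e.symm col ≠ 0 := by
    obtain ⟨i⟩ := hk
    obtain ⟨hx0, -, -, -, -, hx1, -⟩ := h i
    rw [← hx1, Equiv.symm_apply_apply]
    exact fun h => (hD _ hx0).2 ((hcast _).1 h)
  refine ⟨e.symm col, hδ, fun i => ?_⟩
  obtain ⟨hx0, hy0, hw0, hz0, heq, hx1, hy1, hw1, hz1⟩ := h i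
  obtain ⟨⟨s, hs⟩, hs2⟩ := hD _ hx0
  obtain ⟨⟨t, ht⟩, ht2⟩ := hD _ hy0
  obtain ⟨⟨u, hu⟩, hu2⟩ := hD _ hw0
  obtain ⟨⟨v, hv⟩, hv2⟩ := hD _ hz0
  have ex : (D (x i) : ZMod p) = e.symm col := by rw [← hx1, Equiv.symm_apply_apply]
  have ey : (D (y i) : ZMod p) = e.symm col := by rw [← hy1, Equiv.symm_apply_apply]
  have ew : (D (w i) : ZMod p) = e.symm col := by rw [← hw1, Equiv.symm_apply_apply]
  have ez : (D (z i) : ZMod p) = e.symm col := by rw [← hz1, Equiv.symm_apply_apply]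
  generalize D (x i) = X at *
  generalize D (y i) = Y at *
  generalize D (w i) = W at *
  generalize D (z i) = Z at *
  set δ := e.symm col
  obtain ⟨ha, hb, hc, hab⟩ := h1 i
  have hR : ¬ (p : ℤ) ∣ c i * W * Z ^ n := by
    intro h
    rcases hpp.dvd_mul.1 h with h | h
    · rcases hpp.dvd_mul.1 h with h | h
      · exact hc h
      · exact hu2 h
    · exact hv2 (hpp.dvd_of_dvd_pow h)
  have hRHS : c i * w i * z i ^ n = (p : ℤ) ^ (u + v * n) * (c i * W * Z ^ n) := by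
    rw [hu, hv]; ring
  have fin : ∀ (g : ℤ) (E : ℤ) (m : ℕ), a i * x i + b i * y i = (p : ℤ) ^ m * E →
      (E : ZMod p) = g * δ → ¬ (p : ℤ) ∣ g → (c i : ZMod p) * δ ^ n = g := by
    intro g E m h1 h2 h3
    have hE : ¬ (p : ℤ) ∣ E := by
      intro h
      rw [← hcast, h2] at h
      rcases mul_eq_zero.1 h with h | h
      · exact h3 ((hcast _).1 h)
      · exact hδ h
    have h4 := uniq hpp (h1.symm.trans (heq.trans hRHS)) hE hR
    have h5 : (E : ZMod p) = c i * δ * δ ^ n := by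
      rw [h4]; push_cast; rw [ew, ez]
    rw [h2] at h5
    have : (g : ZMod p) * δ = (c i * δ ^ n) * δ := by rw [h5]; ring
    exact (mul_right_cancel₀ hδ this).symm
  rcases lt_trichotomy s t with hst | hst | hst
  · right; left
    obtain ⟨f, rfl⟩ := Nat.exists_eq_add_of_lt hst
    refine fin (a i) (a i * X + b i * ((p : ℤ) ^ (f + 1) * Y)) s (by rw [hs, ht]; ring) ?_ ha
    push_cast
    rw [ex]
    simp
  · subst hst
    by_cases h0 : a i + b i = 0
    · exact Or.inl h0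
    · right; right; right
      have := fin (a i + b i) (a i * X + b i * Y) s (by rw [hs, ht]; ring) (by
        push_cast; rw [ex, ey]; ring) (hab h0)
      rw [this]; push_cast; rfl
  · right; right; left
    obtain ⟨f, rfl⟩ := Nat.exists_eq_add_of_lt hst
    refine fin (b i) (a i * ((p : ℤ) ^ (f + 1) * X) + b i * Y) t (by rw [hs, ht]; ring) ?_ hb
    push_cast
    rw [ey]
    simp

/-- criterion for `n = 1` -/
theorem crit (k : ℕ) (a b c : Fin k → ℤ) (h0 : ∀ i, a i ≠ 0 ∧ b i ≠ 0 ∧ c i ≠ 0) :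
    PartReg k a b c 1 ↔ ∃ q : ℚ, q ≠ 0 ∧ ∀ i, a i + b i = 0 ∨ q = (a i : ℚ) / (c i : ℚ) ∨
      q = (b i : ℚ) / (c i : ℚ) ∨ q = ((a i : ℚ) + (b i : ℚ)) / (c i : ℚ) := by
  constructor
  · intro hPR
    by_cases hall : ∀ i, a i + b i = 0
    · exact ⟨1, one_ne_zero, fun i => Or.inl (hall i)⟩
    push Not at hall
    obtain ⟨i0, hi0⟩ := hall
    let B : ℕ := ∑ i, ((a i).natAbs + (b i).natAbs + (c i).natAbs)
    have hB : ∀ i, (a i).natAbs + (b i).natAbs + (c i).natAbs ≤ B := fun i =>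
      Finset.single_le_sum (f := fun i => (a i).natAbs + (b i).natAbs + (c i).natAbs)
        (fun _ _ => Nat.zero_le _) (Finset.mem_univ i)
    obtain ⟨p, hpB, hp⟩ := Nat.exists_infinite_primes (2 * B ^ 2 + 1 + B)
    have := Fact.mk hp
    have small : ∀ m : ℤ, m.natAbs < p → (p : ℤ) ∣ m → m = 0 := fun m h1 h2 =>
      Int.eq_zero_of_dvd_of_natAbs_lt_natAbs h2 (by simpa using h1)
    obtain ⟨δ, hδ, h⟩ := nec k a b c 1 hPR p (by
      intro i
      have := hB i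
      refine ⟨fun h => (h0 i).1 (small _ (by omega) h), fun h => (h0 i).2.1 (small _ (by omega) h),
        fun h => (h0 i).2.2 (small _ (by omega) h), fun hne h => hne (small _ ?_ h)⟩
      have := Int.natAbs_add_le (a i) (b i)
      omega)
    have hs : ∀ i, a i + b i ≠ 0 → ∃ s : ℤ, (s = a i ∨ s = b i ∨ s = a i + b i) ∧
        (c i : ZMod p) * δ = s := by
      intro i hi
      rcases h i with h | h | h | h
      · exact absurd h hi
      · exact ⟨_, Or.inl rfl, by rw [← h, pow_one]⟩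
      · exact ⟨_, Or.inr (Or.inl rfl), by rw [← h, pow_one]⟩
      · exact ⟨_, Or.inr (Or.inr rfl), by rw [pow_one] at h; rw [h]; push_cast; rfl⟩
    have hsB : ∀ i (s : ℤ), (s = a i ∨ s = b i ∨ s = a i + b i) → s.natAbs ≤ B := by
      intro i s hs
      have := hB i
      have := Int.natAbs_add_le (a i) (b i)
      rcases hs with rfl | rfl | rfl <;> omega
    obtain ⟨s0, hs0, hs0'⟩ := hs i0 hi0
    have hc0 : (c i0 : ℚ) ≠ 0 := by exact_mod_cast (h0 i0).2.2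
    refine ⟨s0 / c i0, div_ne_zero ?_ hc0, fun i => ?_⟩
    · have : s0 ≠ 0 := by
        rcases hs0 with rfl | rfl | rfl
        · exact (h0 i0).1
        · exact (h0 i0).2.1
        · exact hi0
      exact_mod_cast this
    by_cases hi : a i + b i = 0
    · exact Or.inl hi
    right
    obtain ⟨s, hs1, hs2⟩ := hs i hi
    have hci : (c i : ℚ) ≠ 0 := by exact_mod_cast (h0 i).2.2
    have key : s0 * c i = s * c i0 := by
      have h1 : ((s0 * c i - s * c i0 : ℤ) : ZMod p) = 0 := by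
        push_cast
        rw [← hs0', ← hs2]
        ring
      have h2 := (ZMod.intCast_zmod_eq_zero_iff_dvd _ p).1 h1
      have h3 := small _ ?_ h2
      · linarith
      have e1 := hsB i0 s0 hs0
      have e2 := hsB i s hs1
      have e3 := hB i
      have e4 := hB i0
      have e5 : (s0 * c i - s * c i0).natAbs ≤ s0.natAbs * (c i).natAbs +
          s.natAbs * (c i0).natAbs := by
        rw [← Int.natAbs_mul, ← Int.natAbs_mul]
        exact Int.natAbs_sub_le _ _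
      have e6 : s0.natAbs * (c i).natAbs ≤ B * B := Nat.mul_le_mul e1 (by omega)
      have e7 : s.natAbs * (c i0).natAbs ≤ B * B := Nat.mul_le_mul e2 (by omega)
      have : B ^ 2 = B * B := sq B
      omega
    have hq : (s0 : ℚ) / c i0 = s / c i := by
      rw [div_eq_div_iff hc0 hci]
      exact_mod_cast key
    rw [hq]
    rcases hs1 with rfl | rfl | rfl
    · exact Or.inl rfl
    · exact Or.inr (Or.inl rfl)
    · exact Or.inr (Or.inr (by push_cast; rfl))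
  · rintro ⟨q, hq, h⟩
    exact suff k a b c 1 h0 q hq (by simpa using h)

end Pool.Agent.KS6_55.PR
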